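import Mathlib
import Pool.Agent.MP_528dc0_co.TDefs
import Pool.Agent.MP_528dc0_co.Torus
import Pool.Agent.MP_528dc0_co.DFin

/-!
# Four-colourability of toroidal graphs with few triangles: `t* = 9`

`χ(torus, t)` is the greatest chromatic number of a toroidal graph with at most `t` triangles.
The theorem says that `9` is the greatest `t` with `χ(torus, t) = 4`.

* Upper bound: `K₅` is toroidal, has ten triangles and chromatic number five.
* Lower bound: every toroidal graph with at most nine triangles is 4-colourable
  (`colorable_four_of_nine`). A smallest counterexample has few vertices of degree at least five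
  (Euler's formula), and the components of the graph on the vertices of degree four are Gallai
  trees. For every graph `H` on the vertices of high degree there is a certificate: weighted
  4-colourings of `H`, such that every component of low vertices is compatible with all but a small
  part of them, measured by its load of edges and triangles; the budget of edges and triangles is
  then too small to exclude all colourings. The certificates are checked by the kernel.
-/

namespace Pool.Agent.Results.MP_528dc0_co.TStarNine

open Pool.Agent.MP_528dc0_co

/-- **`t* = 9`.** The greatest `t` such that the greatest chromatic number of a toroidal graph with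
at most `t` triangles is `4`, is `9`. -/
theorem result : IsGreatest {t : ℕ | IsGreatest {c : ℕ | ∃ n : ℕ, ∃ G : SimpleGraph (Fin n),
    Toroidal G ∧ nt G ≤ t ∧ G.chromaticNumber = c} 4} 9 := by
  constructor
  · constructor
    · exact ⟨4, ⊤, toroidal_K4, by rw [nt_K4]; norm_num, chi_K 4⟩
    · rintro c ⟨n, G, h1, h2, h3⟩
      have h5 : G.chromaticNumber ≤ 4 := (colorable_four_of_nine G h1 h2).chromaticNumber_le
      rw [h3] at h5
      exact_mod_cast h5
  · rintro t ⟨-, h⟩
    by_contra hcon
    have h6 : 5 ≤ 4 := h ⟨5, ⊤, toroidal_K5, by rw [nt_K5]; omega, chi_K 5⟩
    omega

end Pool.Agent.Results.MP_528dc0_co.TStarNine
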